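import Pool.Agent.H97.LA.Targets
import Pool.Agent.H3.XS.UP
import Pool.Agent.H14.XS.EX

/-!
Circuits with linear algebra gates (MP_c62aed_lc), row UPL: the circuit that tries all exchanges.
-/

set_option autoImplicit false

namespace Pool.Agent.H37.LA

open Finset Pool.Agent.H60.SYM Pool.Agent.H42.XS Pool.Agent.H97.LA
open Pool.Agent.H3.XS (card_cl)
open Pool.Agent.H14.XS (exch_exch pf_EX)

/-! ### The operators -/

/-- the property tested by the output gate -/
def PE (n k : ℕ) (m : ℕ) (M : ℕ → Matrix (Fin m) (Fin m) ℚ) : Prop :=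
  ∃ v : Fin m → ℚ, v ≠ 0 ∧ ∃ x : ℕ → Bool,
    Satisfiable (fun D : Cl n k => x (Fintype.equivFin (Cl n k) D).val) ∧
    ∀ l < Fintype.card (Cl n k), (M l).mulVec v = (if x l = true then (1 : ℚ) else 0) • v

theorem PE_conj (n k : ℕ) (m : ℕ) (M M' : ℕ → Matrix (Fin m) (Fin m) ℚ)
    (D D' : Matrix (Fin m) (Fin m) ℚ) (h' : D' * D = 1)
    (hM : ∀ l, M' l = D * M l * D') (h : PE n k m M) : PE n k m M' := by
  obtain ⟨v, hv, x, hx, he⟩ := h
  refine ⟨D.mulVec v, fun h0 => hv ?_, x, hx, fun l hl => ?_⟩
  · have h1 : D'.mulVec (D.mulVec v) = v := by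
      rw [Matrix.mulVec_mulVec, h', Matrix.one_mulVec]
    rw [← h1, h0, Matrix.mulVec_zero]
  · rw [hM l, Matrix.mulVec_mulVec, Matrix.mul_assoc, h', Matrix.mul_one, ← Matrix.mulVec_mulVec,
      he l hl, Matrix.mulVec_smul]

theorem two_unit : IsUnit (2 : ℚ) := isUnit_iff_ne_zero.2 two_ne_zero

/-- the constant operator -/
noncomputable def oc : Op Bool where
  K := ℚ
  two := two_unit
  code _ _ := 0
  fn _ _ := false
  inv _ _ _ _ _ _ _ _ := rfl

open Classical in
/-- the operator of the output gate -/
noncomputable def oo (n k : ℕ) : Op Bool where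
  K := ℚ
  two := two_unit
  code _ v := if v = true then 1 else 0
  fn m M := decide (PE n k m M)
  inv m M M' D D' h h' hM := by
    have h1 : PE n k m M' ↔ PE n k m M := by
      refine ⟨fun hp => ?_, fun hp => PE_conj n k m M M' D D' h' hM hp⟩
      refine PE_conj n k m M' M D' D h (fun l => ?_) hp
      rw [hM l, ← Matrix.mul_assoc, ← Matrix.mul_assoc, h', Matrix.one_mul, Matrix.mul_assoc, h',
        Matrix.mul_one]
    rw [Bool.eq_iff_iff, decide_eq_true_iff, decide_eq_true_iff]
    exact h1

/-! ### The circuit -/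

section

variable {n k : ℕ} (U : Submodule (ZMod 2) (Fin n → ZMod 2))

/-- the gates -/
abbrev Gt (n k : ℕ) : Type := Cl n k ⊕ Fin 2

/-- the number of the gates -/
noncomputable abbrev ns (n k : ℕ) : ℕ := Fintype.card (Cl n k) + 2

/-- the numbers of the gates -/
noncomputable def enc (n k : ℕ) : Gt n k ≃ Fin (ns n k) :=
  (Equiv.sumCongr (Fintype.equivFin (Cl n k)) (Equiv.refl (Fin 2))).trans finSumFinEquiv

theorem enc_cl (D : Cl n k) : (enc n k (Sum.inl D)).val = (Fintype.equivFin (Cl n k) D).val := by
  simp [enc]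

theorem enc_r (i : Fin 2) : (enc n k (Sum.inr i)).val = Fintype.card (Cl n k) + i.val := by
  simp [enc]

/-- the clause of an input gate -/
def ginp : Gt n k → Option (Cl n k)
  | Sum.inl D => some D
  | Sum.inr _ => none

/-- the operators -/
noncomputable def gop : Gt n k → Op Bool
  | Sum.inl _ => oc
  | Sum.inr i => if i = 1 then oo n k else oc

/-- the numbers of the exchanges -/
noncomputable abbrev io : U ≃ Fin (Fintype.card U) := Fintype.equivFin U

open Classical in
/-- the wires -/
noncomputable def gch (k : ℕ) (l : ℕ) (i j : U) : Gt n k :=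
  if i = j then
    (if h : l < Fintype.card (Cl n k) then
      Sum.inl (exch (i : Fin n → ZMod 2) ((Fintype.equivFin (Cl n k)).symm ⟨l, h⟩))
    else Sum.inr 0)
  else Sum.inr 0

theorem gch_lt (l : ℕ) (i j : U) :
    enc n k (gch U k l i j) < enc n k (Sum.inr 1) := by
  rw [Fin.lt_def, enc_r]
  unfold gch
  split_ifs with h1 h2
  · rw [enc_cl]
    have := (Fintype.equivFin (Cl n k) (exch (i : Fin n → ZMod 2)
      ((Fintype.equivFin (Cl n k)).symm ⟨l, h2⟩))).isLt
    omega
  · rw [enc_r]
    exact Nat.add_lt_add_left (by decide) _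
  · rw [enc_r]
    exact Nat.add_lt_add_left (by decide) _

/-- the circuit -/
noncomputable def cir (k : ℕ) (U : Submodule (ZMod 2) (Fin n → ZMod 2)) :
    LCirc (Cl n k) Bool (ns n k) (Fintype.card U) where
  inp g := ginp ((enc n k).symm g)
  bit := id
  op g := gop ((enc n k).symm g)
  own _ := enc n k (Sum.inr 1)
  ch l i j := enc n k (gch U k l ((io U).symm i) ((io U).symm j))
  acyclic l _ _ _ := gch_lt U l _ _
  out := enc n k (Sum.inr 1)
  acc := id

theorem cir_inp (x : Gt n k) : (cir k U).inp (enc n k x) = ginp x := by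
  change ginp ((enc n k).symm (enc n k x)) = _
  rw [Equiv.symm_apply_apply]

theorem cir_op (x : Gt n k) : (cir k U).op (enc n k x) = gop x := by
  change gop ((enc n k).symm (enc n k x)) = _
  rw [Equiv.symm_apply_apply]

theorem val_some {I V : Type} {s t : ℕ} (C : LCirc I V s t) (φ : I → Bool) (g : Fin s) (i : I)
    (h : C.inp g = some i) : C.val φ g = C.bit (φ i) := by
  rw [LCirc.val]
  split
  · rename_i i' h'
    rw [h] at h'
    cases h'
    rfl
  · rename_i h'
    rw [h] at h'
    cases h'

theorem val_none {I V : Type} {s t : ℕ} (C : LCirc I V s t) (φ : I → Bool) (g : Fin s)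
    (h : C.inp g = none) : C.val φ g =
      (C.op g).app {i : Fin t // C.own i = g} fun l i j => C.val φ (C.ch l i.1 j.1) := by
  rw [LCirc.val]
  split
  · rename_i i' h'
    rw [h] at h'
    cases h'
  · rfl

theorem val_cl (φ : Cl n k → Bool) (D : Cl n k) :
    (cir k U).val φ (enc n k (Sum.inl D)) = φ D :=
  val_some _ _ _ D (cir_inp U _)

theorem val_zero (φ : Cl n k → Bool) :
    (cir k U).val φ (enc n k (Sum.inr 0)) = false := by
  rw [val_none _ _ _ (cir_inp U _), cir_op]
  rfl

/-- the values of the wires -/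
theorem val_ch (φ : Cl n k → Bool) (l : ℕ) (i j : Fin (Fintype.card U)) :
    (cir k U).val φ ((cir k U).ch l i j) =
      if i = j then (if h : l < Fintype.card (Cl n k) then
        φ (exch ((io U).symm i : Fin n → ZMod 2) ((Fintype.equivFin (Cl n k)).symm ⟨l, h⟩))
      else false) else false := by
  change (cir k U).val φ (enc n k (gch U k l ((io U).symm i) ((io U).symm j))) = _
  unfold gch
  by_cases h1 : i = j
  · rw [if_pos (congrArg _ h1), if_pos h1]
    by_cases h2 : l < Fintype.card (Cl n k)
    · rw [dif_pos h2, dif_pos h2, val_cl]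
    · rw [dif_neg h2, dif_neg h2, val_zero]
  · rw [if_neg (fun h => h1 ((io U).symm.injective h)), if_neg h1, val_zero]

theorem ans_cir (φ : Cl n k → Bool) : (cir k U).ans φ = true ↔ Satisfiable φ := by
  classical
  have hEX := (pf_EX n k).2.2
  unfold LCirc.ans
  change (cir k U).val φ (enc n k (Sum.inr 1)) = true ↔ _
  rw [val_none _ _ _ (cir_inp U _), cir_op]
  change (oo n k).app _ _ = true ↔ _
  unfold Op.app
  set J := {i : Fin (Fintype.card U) // (cir k U).own i = enc n k (Sum.inr 1)} with hJ
  change decide (PE n k (Fintype.card J) fun l a b =>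
    (if (cir k U).val φ ((cir k U).ch l ((Fintype.equivFin J).symm a).1
      ((Fintype.equivFin J).symm b).1) = true then (1 : ℚ) else 0)) = true ↔ _
  rw [decide_eq_true_iff]
  have hM : ∀ (l : ℕ) (hl : l < Fintype.card (Cl n k)),
      (fun a b => (if (cir k U).val φ ((cir k U).ch l ((Fintype.equivFin J).symm a).1
        ((Fintype.equivFin J).symm b).1) = true then (1 : ℚ) else 0)) =
      Matrix.diagonal fun a => if φ (exch ((io U).symm ((Fintype.equivFin J).symm a).1 :
        Fin n → ZMod 2) ((Fintype.equivFin (Cl n k)).symm ⟨l, hl⟩)) = true then (1 : ℚ) else 0 := by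
    intro l hl
    funext a b
    rw [val_ch]
    by_cases h1 : a = b
    · subst h1
      rw [Matrix.diagonal_apply_eq, if_pos rfl, dif_pos hl]
    · rw [Matrix.diagonal_apply_ne _ h1,
        if_neg (fun h2 => h1 ((Fintype.equivFin J).symm.injective (Subtype.ext h2)))]
      exact if_neg (by decide)
  constructor
  · rintro ⟨v, hv, x, hx, he⟩
    obtain ⟨a, ha⟩ := Function.ne_iff.1 hv
    have ha' : v a ≠ 0 := ha
    have h1 : (fun D : Cl n k => x (Fintype.equivFin (Cl n k) D).val) =
        fun D => φ (exch ((io U).symm ((Fintype.equivFin J).symm a).1 : Fin n → ZMod 2) D) := by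
      funext D
      have hl := (Fintype.equivFin (Cl n k) D).isLt
      have h2 := congrFun (he _ hl) a
      simp only at h2
      rw [hM _ hl, Matrix.mulVec_diagonal, Pi.smul_apply, smul_eq_mul] at h2
      have h3 := mul_right_cancel₀ ha' h2
      have h4 : (Fintype.equivFin (Cl n k)).symm
          ⟨(Fintype.equivFin (Cl n k) D).val, hl⟩ = D := by
        rw [Fin.eta, Equiv.symm_apply_apply]
      rw [h4] at h3
      by_cases hb : φ (exch ((io U).symm ((Fintype.equivFin J).symm a).1 : Fin n → ZMod 2) D) =
        true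
      · rw [if_pos hb] at h3
        rw [hb]
        by_contra hc
        rw [if_neg hc] at h3
        exact one_ne_zero h3
      · rw [if_neg hb] at h3
        have hb' := Bool.eq_false_of_not_eq_true hb
        rw [hb']
        by_contra hc
        rw [if_pos (Bool.eq_true_of_not_eq_false hc)] at h3
        exact zero_ne_one h3
    rw [h1] at hx
    exact (hEX _ φ).1 hx
  · intro hs
    obtain ⟨a⟩ : Nonempty (Fin (Fintype.card J)) :=
      ⟨Fintype.equivFin J ⟨io U 0, rfl⟩⟩
    refine ⟨Pi.single a 1, fun h => ?_, fun l => if h : l < Fintype.card (Cl n k) then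
      φ (exch ((io U).symm ((Fintype.equivFin J).symm a).1 : Fin n → ZMod 2)
        ((Fintype.equivFin (Cl n k)).symm ⟨l, h⟩)) else false, ?_, fun l hl => ?_⟩
    · have := congrFun h a
      rw [Pi.single_eq_same] at this
      exact one_ne_zero this
    · have h1 : (fun D : Cl n k => if h : (Fintype.equivFin (Cl n k) D).val <
          Fintype.card (Cl n k) then
          φ (exch ((io U).symm ((Fintype.equivFin J).symm a).1 : Fin n → ZMod 2)
            ((Fintype.equivFin (Cl n k)).symm ⟨(Fintype.equivFin (Cl n k) D).val, h⟩)) else false)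
          = fun D => φ (exch ((io U).symm ((Fintype.equivFin J).symm a).1 :
            Fin n → ZMod 2) D) := by
        funext D
        have hl := (Fintype.equivFin (Cl n k) D).isLt
        rw [dif_pos hl]
        congr 2
        rw [Fin.eta, Equiv.symm_apply_apply]
      rw [h1]
      exact (hEX _ φ).2 hs
    · simp only [dif_pos hl]
      rw [hM l hl]
      funext b
      rw [Matrix.mulVec_diagonal, Pi.smul_apply, smul_eq_mul]
      by_cases hb : b = a
      · rw [hb]
      · rw [Pi.single_eq_of_ne hb, mul_zero, mul_zero]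

/-! ### The action -/

/-- the exchanges as permutations of the gates -/
noncomputable def ga (k : ℕ) (f : Fin n → ZMod 2) : Equiv.Perm (Gt n k) :=
  Equiv.sumCongr ⟨exch f, exch f, exch_exch f, exch_exch f⟩ (Equiv.refl (Fin 2))

/-- the same on the numbers -/
noncomputable def gA (k : ℕ) (f : Fin n → ZMod 2) : Equiv.Perm (Fin (ns n k)) :=
  ((enc n k).symm.trans (ga k f)).trans (enc n k)

theorem gA_enc (f : Fin n → ZMod 2) (x : Gt n k) : gA k f (enc n k x) = enc n k (ga k f x) := by
  change enc n k (ga k f ((enc n k).symm (enc n k x))) = _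
  rw [Equiv.symm_apply_apply]

open Classical in
/-- the permutations of the indices -/
noncomputable def gB (f : Fin n → ZMod 2) : Equiv.Perm (Fin (Fintype.card U)) :=
  if h : f ∈ U then ((io U).symm.trans (Equiv.addRight (⟨f, h⟩ : U))).trans (io U) else 1

theorem gB_apply {f : Fin n → ZMod 2} (h : f ∈ U) (i : Fin (Fintype.card U)) :
    (io U).symm (gB U f i) = (io U).symm i + ⟨f, h⟩ := by
  unfold gB
  rw [dif_pos h]
  change (io U).symm (io U (((io U).symm i) + ⟨f, h⟩)) = _
  rw [Equiv.symm_apply_apply]

theorem act : IsAct U (cir k U) (gA k) (gB U) where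
  ga f _ f' _ := by
    refine Equiv.ext fun g => ?_
    obtain ⟨x, rfl⟩ := (enc n k).surjective g
    rw [Equiv.Perm.mul_apply, gA_enc, gA_enc, gA_enc]
    congr 1
    rcases x with D | i
    · change Sum.inl (exch (f + f') D) = Sum.inl (exch f (exch f' D))
      rw [(pf_EX n k).1]
    · rfl
  gb f hf f' hf' := by
    refine Equiv.ext fun i => (io U).symm.injective ?_
    rw [Equiv.Perm.mul_apply, gB_apply U (U.add_mem hf hf'), gB_apply U hf, gB_apply U hf',
      add_assoc]
    congr 1
    apply Subtype.ext
    change f + f' = f' + f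
    exact add_comm f f'
  out f _ := by
    change gA k f (enc n k (Sum.inr 1)) = enc n k (Sum.inr 1)
    rw [gA_enc]
    rfl
  inp f _ g := by
    obtain ⟨x, rfl⟩ := (enc n k).surjective g
    rw [gA_enc, cir_inp, cir_inp]
    rcases x with D | i <;> rfl
  op f _ g := by
    obtain ⟨x, rfl⟩ := (enc n k).surjective g
    rw [gA_enc, cir_op, cir_op]
    rcases x with D | i <;> rfl
  own f _ i := by
    change enc n k (Sum.inr 1) = gA k f (enc n k (Sum.inr 1))
    rw [gA_enc]
    rfl
  ch f hf l i j _ := by
    change enc n k (gch U k l ((io U).symm (gB U f i)) ((io U).symm (gB U f j))) =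
      gA k f (enc n k (gch U k l ((io U).symm i) ((io U).symm j)))
    rw [gA_enc, gB_apply U hf, gB_apply U hf]
    congr 1
    unfold gch
    by_cases h1 : (io U).symm i = (io U).symm j
    · rw [if_pos (by rw [h1]), if_pos h1]
      by_cases h2 : l < Fintype.card (Cl n k)
      · rw [dif_pos h2, dif_pos h2]
        change Sum.inl (exch (((io U).symm i : Fin n → ZMod 2) + f) _) =
          Sum.inl (exch f (exch ((io U).symm i : Fin n → ZMod 2) _))
        rw [← (pf_EX n k).1, add_comm]
      · rw [dif_neg h2, dif_neg h2]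
        rfl
    · rw [if_neg (fun h => h1 (add_right_cancel h)), if_neg h1]
      rfl

end

/-- **Row UPL.** -/
theorem pf_UPL : T_UPL := by
  intro n k U
  refine ⟨ns n k, Fintype.card U, cir k U, ⟨gA k, gB U, act U⟩, ans_cir U, ?_⟩
  have h1 := card_cl n k
  have h2 : Fintype.card U = 2 ^ Module.finrank (ZMod 2) U := by
    have h3 := Module.card_eq_pow_finrank (K := ZMod 2) (V := U)
    rw [ZMod.card] at h3
    exact h3
  rw [ns, h2]
  omega

end Pool.Agent.H37.LA
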